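import Pool.Agent.U828.DU.Diag
import Pool.Agent.N846.DU.Gam
import Pool.Agent.N846.DU.Left
import Pool.Agent.N846.DT.Master
import Pool.Agent.U985.UT.Three
import Pool.Agent.U985.UT.Gauss

/-! Gaussian averages of the squares of the Hecke eigenvalues over a number field: an upper bound, uniform in the
representation. -/

set_option autoImplicit false

namespace Pool.Agent.U985.UK

open Complex MeasureTheory Filter Topology NumberField IsDedekindDomain
open Pool.Agent.N846.DU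
open Pool.Agent.N846.DT (rpow_exp)
open Pool.Agent.U985.UT (fd gaussB JG JG_nonneg)
open Pool.Agent.W189.TP (DS)

theorem countV (K : Type) [Field K] [NumberField K] : Countable (HeightOneSpectrum (𝓞 K)) := by
  rw [← Set.countable_univ_iff]
  have h1 : (Set.univ : Set (HeightOneSpectrum (𝓞 K))) ⊆
      ⋃ b : ℕ, {v | Ideal.absNorm v.asIdeal ≤ b} := fun v _ =>
    Set.mem_iUnion.2 ⟨Ideal.absNorm v.asIdeal, Set.mem_ofPred_eq ▸ le_refl _⟩
  refine (Set.countable_iUnion fun b => Set.Finite.countable ?_).mono h1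
  have h1 : {I : Ideal (𝓞 K) | Ideal.absNorm I ≤ b}.Finite := Ideal.finite_setOfPred_absNorm_le _
  exact (h1.preimage (f := fun v : HeightOneSpectrum (𝓞 K) => v.asIdeal)
    (fun v _ w _ h => HeightOneSpectrum.ext h)).subset fun v hv => hv

theorem logRS_DS {K : Type} [Field K] [NumberField K] (u : VX K → ℂ) (s : ℂ) :
    logRS u u s = DS (fun x : VX K => ‖u x‖ ^ 2) LV s := by
  unfold logRS DS
  refine tsum_congr fun x => ?_
  rw [Complex.mul_conj, Complex.normSq_eq_norm_sq]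

theorem formK (K : Type) [Field K] [NumberField K] (n N : ℕ) {ε : ℝ} (hε : 0 < ε) : ∃ A : ℝ, 0 ≤ A ∧
    ∀ (S : Finset (HeightOneSpectrum (𝓞 K))) (α : HeightOneSpectrum (𝓞 K) → Fin n → ℂ) (u : VX K → ℂ) (q : ℝ)
      (κ : Fin N → ℂ), Rep n S α u → RS u u q κ 1 →
      ∀ s : ℝ, 1 ≤ s → ∀ T : Finset (VX K),
        ∑ x ∈ T, ‖u x‖ ^ 2 * LV x * Real.exp (-LV x) * Real.exp (-(LV x) ^ 2 / (2 * s ^ 2)) ≤
          √(Real.pi / 2) * s + (1 / 4 + ε) * Real.log (q * ∏ j, (1 + ‖κ j‖)) + A := by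
  set σ₁ : ℝ := min 1 (ε / 2) with hσ₁
  have hσ : 0 < σ₁ := lt_min one_pos (by positivity)
  have hσ1 : σ₁ ≤ 1 := min_le_left _ _
  have hσε : σ₁ ≤ ε / 2 := min_le_right _ _
  obtain ⟨Cl, hCl, hleft⟩ := left gam N σ₁ hσ
  obtain ⟨Cd, hCd, hdiag⟩ := Pool.Agent.U828.DU.D.diag (left gam) K n N σ₁ σ₁ hσ hσ
  set Kx : ℝ := 1 + (N : ℝ) * (1 / 2 + σ₁) with hK
  have hK0 : 0 ≤ Kx := by positivity
  obtain ⟨CK, hCK0, hCK⟩ := rpow_exp Kx
  set Cl' : ℝ := max 1 Cl with hCl'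
  set Cd' : ℝ := max 1 Cd with hCd'
  set E : ℝ := Real.log (max 1 CK) + 10 with hE
  have h1Cl : 1 ≤ Cl' := le_max_left _ _
  have h1Cd : 1 ≤ Cd' := le_max_left _ _
  have h1CK : 1 ≤ max 1 CK := le_max_left _ _
  have hE0 : 0 ≤ E := by
    have := Real.log_nonneg h1CK
    linarith
  have hEv : ∀ v : ℝ, (1 + |v|) ^ Kx * Real.exp (9 - v ^ 2) ≤ Real.exp E := by
    intro v
    rw [hE, Real.exp_add, Real.exp_log (by linarith)]
    calc (1 + |v|) ^ Kx * Real.exp (9 - v ^ 2) ≤ (CK * Real.exp |v|) * Real.exp (9 - v ^ 2) :=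
          mul_le_mul_of_nonneg_right (hCK _ (abs_nonneg _)) (Real.exp_pos _).le
      _ = CK * Real.exp (|v| + (9 - v ^ 2)) := by rw [Real.exp_add]; ring
      _ ≤ max 1 CK * Real.exp 10 := by
          refine mul_le_mul (le_max_right _ _) (Real.exp_le_exp.2 ?_) (Real.exp_pos _).le (by linarith)
          have : v ^ 2 = |v| ^ 2 := (sq_abs v).symm
          nlinarith [sq_nonneg (|v| - 1 / 2)]
  refine ⟨(Real.log Cl' + 2 * Real.log Cd' + E + Kx * JG) / 2, by
    have h1 := Real.log_nonneg h1Cl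
    have h2 := Real.log_nonneg h1Cd
    have h3 := mul_nonneg hK0 JG_nonneg
    linarith, fun S α u q κ hrep hrs s hs T => ?_⟩
  obtain ⟨G, hG, hGe, hgr, -, hleft'⟩ := hleft K u u q κ 1 le_rfl hrs hrep.summable hrep.summable
  have hdiag' := hdiag S α u q κ hrep hrs
  set P : ℝ := q * ∏ j, (1 + ‖κ j‖) with hP
  have hq1 := hrs.one_le
  have hprod : 1 ≤ ∏ j, (1 + ‖κ j‖) := by
    refine Finset.one_le_prod fun j _ => ?_
    linarith [norm_nonneg (κ j)]
  have hP1 : 1 ≤ P := one_le_mul_of_one_le_of_one_le hq1 hprod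
  have hP0 : 0 < P := by linarith
  have hlP : 0 ≤ Real.log P := Real.log_nonneg hP1
  set D : ℝ := Real.log (Cd' * P ^ σ₁) with hD
  have hDv : D = Real.log Cd' + σ₁ * Real.log P := by
    rw [hD, Real.log_mul (by linarith) (by positivity), Real.log_rpow hP0]
  have hdiag2 : Real.exp (∑' x : VX K, ‖u x‖ ^ 2 * Real.exp (-((1 + σ₁) * LV x))) ≤ Cd' * P ^ σ₁ :=
    le_trans hdiag' (mul_le_mul_of_nonneg_right (le_max_right _ _) (by positivity))
  set B : ℝ := Cl' * P ^ (1 / 2 + σ₁) * (Cd' * P ^ σ₁) with hB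
  have hB0 : 0 < B := by positivity
  have hBv : Real.log B = Real.log Cl' + (1 / 2 + σ₁) * Real.log P + D := by
    rw [hB, Real.log_mul (by positivity) (by positivity), Real.log_mul (by positivity) (by positivity),
      Real.log_rpow hP0, hD]
  have hleft2 : ∀ t : ℝ, ‖G (((-σ₁ : ℝ) : ℂ) + t * I) / ((((-σ₁ : ℝ) : ℂ) + t * I) - 1)‖ ≤ B * (1 + |t|) ^ Kx := by
    intro t
    have ht1 : (1 : ℝ) ≤ 1 + |t| := by linarith [abs_nonneg t]
    have h1 : 1 ≤ ‖(((-σ₁ : ℝ) : ℂ) + t * I) - 1‖ := by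
      have h2 := Complex.abs_re_le_norm ((((-σ₁ : ℝ) : ℂ) + t * I) - 1)
      have h3 : ((((-σ₁ : ℝ) : ℂ) + t * I) - 1).re = -σ₁ - 1 := by simp
      rw [h3, abs_of_neg (by linarith)] at h2
      linarith
    rw [norm_div]
    refine (div_le_self (norm_nonneg _) h1).trans ((hleft' t).trans ?_)
    have h4 : q * ∏ j, (1 + ‖κ j + t * I‖) ≤ P * (1 + |t|) ^ N := by
      rw [hP, mul_assoc]
      refine mul_le_mul_of_nonneg_left ?_ (by linarith)
      calc ∏ j, (1 + ‖κ j + t * I‖) ≤ ∏ j, ((1 + ‖κ j‖) * (1 + |t|)) := by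
            refine Finset.prod_le_prod (fun j _ => by positivity) fun j _ => ?_
            have h5 : ‖κ j + t * I‖ ≤ ‖κ j‖ + |t| := by
              refine (norm_add_le _ _).trans (le_of_eq ?_)
              simp
            nlinarith [norm_nonneg (κ j), abs_nonneg t, mul_nonneg (norm_nonneg (κ j)) (abs_nonneg t)]
        _ = _ := by rw [Finset.prod_mul_distrib, Finset.prod_const, Finset.card_univ, Fintype.card_fin]
    have h5 : (q * ∏ j, (1 + ‖κ j + t * I‖)) ^ (1 / 2 + σ₁) ≤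
        P ^ (1 / 2 + σ₁) * (1 + |t|) ^ ((N : ℝ) * (1 / 2 + σ₁)) := by
      refine (Real.rpow_le_rpow ?_ h4 (by positivity)).trans (le_of_eq ?_)
      · have : 0 ≤ ∏ j, (1 + ‖κ j + t * I‖) := Finset.prod_nonneg fun j _ => by positivity
        exact mul_nonneg (by linarith) this
      · rw [Real.mul_rpow hP0.le (by positivity), Real.rpow_mul (by positivity), Real.rpow_natCast]
    have h6 : (∑' x : VX K, ‖u x‖ ^ 2 * Real.exp (-((1 + σ₁) * LV x))) / 2 +
            (∑' x : VX K, ‖u x‖ ^ 2 * Real.exp (-((1 + σ₁) * LV x))) / 2 =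
        ∑' x : VX K, ‖u x‖ ^ 2 * Real.exp (-((1 + σ₁) * LV x)) := by ring
    rw [h6, pow_one]
    calc Cl * (1 + |t|) * (q * ∏ j, (1 + ‖κ j + t * I‖)) ^ (1 / 2 + σ₁) *
          Real.exp (∑' x : VX K, ‖u x‖ ^ 2 * Real.exp (-((1 + σ₁) * LV x))) ≤
        Cl' * (1 + |t|) * (P ^ (1 / 2 + σ₁) * (1 + |t|) ^ ((N : ℝ) * (1 / 2 + σ₁))) * (Cd' * P ^ σ₁) := by
          refine mul_le_mul (mul_le_mul (mul_le_mul_of_nonneg_right (le_max_right _ _) (by positivity)) h5
            ?_ (by positivity)) hdiag2 (Real.exp_pos _).le (by positivity)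
          refine Real.rpow_nonneg ?_ _
          have : 0 ≤ ∏ j, (1 + ‖κ j + t * I‖) := Finset.prod_nonneg fun j _ => by positivity
          exact mul_nonneg (by linarith) this
      _ = _ := by
          rw [hB, hK, Real.rpow_add (show (0 : ℝ) < 1 + |t| by positivity), Real.rpow_one]
          ring
  haveI := countV K
  have hmain := gaussB (d := fun x : VX K => ‖u x‖ ^ 2) (L := LV) (c₀ := Real.log B + D + E) (K := Kx)
    (fun x => sq_nonneg _) Pool.Agent.U828.DU.D.LV_nonneg'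
    (fun σ hσ => hrep.summable σ hσ) hK0 (fun δ η ξ hη hηδ hδ =>
      fd (d := fun x : VX K => ‖u x‖ ^ 2) (L := LV) (fun x => sq_nonneg _) Pool.Agent.U828.DU.D.LV_nonneg'
        (fun σ hσ => hrep.summable σ hσ) hG
        (fun s hs => by rw [hGe s hs, logRS_DS, pow_one]) hgr hσ hσ1 hB0 hK0 hEv hleft2
        (by
          have := Real.log_le_log (Real.exp_pos _) hdiag2
          rwa [Real.log_exp] at this)
        (by
          rw [hBv, hDv]
          have h1 := Real.log_nonneg h1Cl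
          have h2 := Real.log_nonneg h1Cd
          have h3 := mul_nonneg hσ.le hlP
          nlinarith) ξ hη hηδ hδ) hs T
  refine hmain.trans ?_
  rw [hBv, hDv]
  nlinarith [mul_nonneg (sub_nonneg.2 hσε) hlP, mul_nonneg hσ.le hlP]

/-- **Gaussian averages over the places.** -/
theorem primeK (K : Type) [Field K] [NumberField K] (n N : ℕ) {ε : ℝ} (hε : 0 < ε) : ∃ A : ℝ, 0 ≤ A ∧
    ∀ (S : Finset (HeightOneSpectrum (𝓞 K))) (α : HeightOneSpectrum (𝓞 K) → Fin n → ℂ) (u : VX K → ℂ) (q : ℝ)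
      (κ : Fin N → ℂ), Rep n S α u → RS u u q κ 1 →
      ∀ s : ℝ, 1 ≤ s → ∀ T : Finset (HeightOneSpectrum (𝓞 K)), (∀ v ∈ T, v ∉ S) →
        ∑ v ∈ T, ‖∑ i, α v i‖ ^ 2 * (Real.log (Nv v) / Nv v) *
            Real.exp (-(Real.log (Nv v)) ^ 2 / (2 * s ^ 2)) ≤
          √(Real.pi / 2) * s + (1 / 4 + ε) * Real.log (q * ∏ j, (1 + ‖κ j‖)) + A := by
  obtain ⟨A, hA, hB⟩ := formK K n N hε
  refine ⟨A, hA, fun S α u q κ hrep hrs s hs T hT => ?_⟩
  let e : HeightOneSpectrum (𝓞 K) ↪ VX K := ⟨fun v => (v, 0, 0), fun a b hab => by simpa using hab⟩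
  have h1 := hB S α u q κ hrep hrs s hs (T.map e)
  rw [Finset.sum_map] at h1
  refine le_trans (le_of_eq ?_) h1
  refine Finset.sum_congr rfl fun v hv => ?_
  change _ = ‖u (v, 0, 0)‖ ^ 2 * LV (v, 0, 0) * Real.exp (-LV (v, 0, 0)) *
    Real.exp (-(LV (v, 0, 0)) ^ 2 / (2 * s ^ 2))
  have h2 : LV ((v, 0, 0) : VX K) = Real.log (Nv v) := by simp [LV]
  have h3 : u (v, 0, 0) = ∑ i, α v i := by
    rw [hrep.unram v (hT v hv) 0 0]
    simp
  rw [h2, h3, Real.exp_neg, Real.exp_log (Pool.Agent.U828.DU.D.Nv_pos v)]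
  ring

end Pool.Agent.U985.UK
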