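import Pool.Agent.U985.UK.MassK
import Pool.Agent.U985.UK.FormK

/-! Many places at which most of the members of a family of representations have small Hecke eigenvalues, uniformly in
the size of the family. -/

set_option autoImplicit false

namespace Pool.Agent.U985.UK

open MeasureTheory Filter Topology NumberField IsDedekindDomain
open Pool.Agent.N846.DU
open Pool.Agent.U985.UT (II II_scale)
open Pool.Agent.N753.LS (PP mem_PP)

theorem mert_gaussK' (K : Type) [Field K] [NumberField K] {η : ℝ} (hη : 0 < η) (hη1 : η ≤ 1) :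
    ∃ A₀ : ℝ, 0 ≤ A₀ ∧ ∀ s : ℝ, 0 < s → ∀ P : ℝ, 1 ≤ P →
    (1 - η) * (∫ t in (0 : ℝ)..Real.log P, Real.exp (-t ^ 2 / (2 * s ^ 2))) - A₀ ≤
      ∑ v ∈ PP K P, Real.log (Nv v) / Nv v * Real.exp (-(Real.log (Nv v)) ^ 2 / (2 * s ^ 2)) :=
  mert_gaussK K hη hη1

theorem mem_PP' {K : Type} [Field K] [NumberField K] {z : ℝ} {v : HeightOneSpectrum (𝓞 K)} :
    v ∈ PP K z ↔ Nv v ≤ z := mem_PP

theorem sum_set_le' (K : Type) [Field K] [NumberField K] {η : ℝ} (hη : 0 < η) :
    ∃ C : ℝ, 0 ≤ C ∧ ∀ G : Finset (HeightOneSpectrum (𝓞 K)),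
      ∑ v ∈ G, Real.log (Nv v) / Nv v ≤ η * ∑ v ∈ G, Real.log (Nv v) + C :=
  Pool.Agent.N753.LS.sum_set_le K hη

theorem count_of_massK' (K : Type) [Field K] [NumberField K] {a : ℝ} (ha : 0 < a) (b : ℝ) :
    ∃ P₀ δ : ℝ, 1 ≤ P₀ ∧ 0 < δ ∧
    ∀ P : ℝ, P₀ ≤ P → ∀ S ⊆ PP K P,
    a * Real.log P - b ≤ ∑ v ∈ S, Real.log (Nv v) / Nv v →
    P ^ δ ≤ (S.card : ℝ) := count_of_massK K ha b

/-- `primeK`, uniformly in the bounded ranks and degrees -/
theorem primeU (K : Type) [Field K] [NumberField K] (n₀ N₀ : ℕ) {ε : ℝ} (hε : 0 < ε) : ∃ A : ℝ, 0 ≤ A ∧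
    ∀ (n N : ℕ), n ≤ n₀ → N ≤ N₀ →
    ∀ (S : Finset (HeightOneSpectrum (𝓞 K))) (α : HeightOneSpectrum (𝓞 K) → Fin n → ℂ) (u : VX K → ℂ) (q : ℝ)
      (κ : Fin N → ℂ), Rep n S α u → RS u u q κ 1 →
      ∀ s : ℝ, 1 ≤ s → ∀ T : Finset (HeightOneSpectrum (𝓞 K)), (∀ v ∈ T, v ∉ S) →
        ∑ v ∈ T, ‖∑ i, α v i‖ ^ 2 * (Real.log (Nv v) / Nv v) *
            Real.exp (-(Real.log (Nv v)) ^ 2 / (2 * s ^ 2)) ≤
          √(Real.pi / 2) * s + (1 / 4 + ε) * Real.log (q * ∏ j, (1 + ‖κ j‖)) + A := by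
  have h := fun a : ℕ × ℕ => primeK K a.1 a.2 hε
  choose A hA hB using h
  refine ⟨∑ a ∈ Finset.range (n₀ + 1) ×ˢ Finset.range (N₀ + 1), A a, Finset.sum_nonneg fun a _ => hA a,
    fun n N hn hN S α u q κ h1 h2 s hs T hT => ?_⟩
  have h3 := hB (n, N) S α u q κ h1 h2 s hs T hT
  have h4 : A (n, N) ≤ ∑ a ∈ Finset.range (n₀ + 1) ×ˢ Finset.range (N₀ + 1), A a :=
    Finset.single_le_sum (fun a _ => hA a) (by
      rw [Finset.mem_product, Finset.mem_range, Finset.mem_range]
      exact ⟨by omega, by omega⟩)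
  linarith

/-- **Many places with small eigenvalues**, for most members of a family -/
theorem manyU (K : Type) [Field K] [NumberField K] (n₀ N₀ : ℕ) {m B x c : ℝ} (hm : 0 < m) (hB : 0 ≤ B) (hx : 0 < x)
    (hD : 0 < m * II x - √(Real.pi / 2)) (hc : x / (4 * (m * II x - √(Real.pi / 2))) < c) :
    ∃ A δ : ℝ, 0 < A ∧ 0 < δ ∧ ∀ (r : ℕ), 1 ≤ r → ∀ (n N : Fin r → ℕ), (∀ i, n i ≤ n₀) → (∀ i, N i ≤ N₀) →
    ∀ (S : Fin r → Finset (HeightOneSpectrum (𝓞 K))) (α : ∀ i, HeightOneSpectrum (𝓞 K) → Fin (n i) → ℂ)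
      (u : Fin r → VX K → ℂ) (q : Fin r → ℝ) (κ : ∀ i, Fin (N i) → ℂ),
      (∀ i, Rep (n i) (S i) (α i) (u i)) → (∀ i, RS (u i) (u i) (q i) (κ i) 1) →
      (∀ i, ∏ v ∈ S i, Nv v ≤ q i) →
      ∀ P : ℝ, A * (∏ i, (q i * ∏ j, (1 + ‖κ i j‖))) ^ (c / r) ≤ P →
        ∃ T : Finset (HeightOneSpectrum (𝓞 K)), P ^ δ ≤ (T.card : ℝ) ∧
          ∀ v ∈ T, Nv v ≤ P ∧ ∑ i, (open Classical in if v ∈ S i then B else ‖∑ j, α i v j‖ ^ 2) < m * r := by
  classical
  set D : ℝ := m * II x - √(Real.pi / 2) with hDd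
  have hc0 : 0 < c := lt_trans (by positivity) hc
  have hII : 0 < II x := by
    have h1 : 0 ≤ √(Real.pi / 2) := Real.sqrt_nonneg _
    have h2 : 0 < m * II x := by linarith
    exact pos_of_mul_pos_right h2 hm.le
  have hgap : 0 < D - x / (4 * c) := by
    rw [div_lt_iff₀ (by positivity)] at hc
    rw [sub_pos, div_lt_iff₀ (by positivity)]
    linarith
  set gap : ℝ := D - x / (4 * c) with hgapd
  set η : ℝ := min 1 (gap / (4 * (m * II x))) with hη
  have hη0 : 0 < η := lt_min one_pos (by positivity)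
  have hη1 : η ≤ 1 := min_le_left _ _
  have hηg : η * (m * II x) ≤ gap / 4 := by
    have h1 : η ≤ gap / (4 * (m * II x)) := min_le_right _ _
    calc η * (m * II x) ≤ gap / (4 * (m * II x)) * (m * II x) :=
          mul_le_mul_of_nonneg_right h1 (by positivity)
      _ = gap / 4 := by field_simp
  set ε : ℝ := gap * c / (4 * x) with hε
  have hε0 : 0 < ε := by positivity
  set η' : ℝ := ε / (B + 1) with hη'
  have hη'0 : 0 < η' := by positivity
  obtain ⟨A₂, hA2, hB2⟩ := primeU K n₀ N₀ hε0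
  obtain ⟨A₀, hA0, hG⟩ := mert_gaussK' K hη0 hη1
  obtain ⟨C₁, hC1, hbad⟩ := sum_set_le' K hη'0
  set Atot : ℝ := A₂ + B * C₁ + m * A₀ with hAtot
  have ha0 : 0 < gap / (4 * x) / m := by positivity
  obtain ⟨P₀, δ, hP01, hδ, hP0⟩ := count_of_massK' K ha0 (Atot / m)
  refine ⟨max P₀ (Real.exp x), δ, lt_of_lt_of_le (Real.exp_pos x) (le_max_right _ _), hδ,
    fun r hr n N hn hN S α u q κ hrep hrs hS P hP => ?_⟩
  have hr0 : (0 : ℝ) < r := by exact_mod_cast hr
  set Ci : Fin r → ℝ := fun i => q i * ∏ j, (1 + ‖κ i j‖) with hCi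
  have hprod : ∀ i, 1 ≤ ∏ j, (1 + ‖κ i j‖) := fun i => by
    refine Finset.one_le_prod fun j _ => ?_
    linarith [norm_nonneg (κ i j)]
  have hCi1 : ∀ i, 1 ≤ Ci i := fun i => one_le_mul_of_one_le_of_one_le (hrs i).one_le (hprod i)
  have hqC : ∀ i, q i ≤ Ci i := fun i =>
    le_mul_of_one_le_right (by linarith [(hrs i).one_le]) (hprod i)
  set C : ℝ := ∏ i, Ci i with hC
  have hCC1 : 1 ≤ C := Finset.one_le_prod fun i _ => hCi1 i
  have hC0 : 0 < C := by linarith
  have hlC : Real.log C = ∑ i, Real.log (Ci i) := Real.log_prod fun i _ => by linarith [hCi1 i]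
  have hlC0 : 0 ≤ Real.log C := Real.log_nonneg hCC1
  have hcr : 0 < c / r := by positivity
  have hCc : 1 ≤ C ^ (c / r) := Real.one_le_rpow hCC1 hcr.le
  have hAA0 : 0 < max P₀ (Real.exp x) := lt_of_lt_of_le (Real.exp_pos x) (le_max_right _ _)
  have hPA : max P₀ (Real.exp x) ≤ P := (le_mul_of_one_le_right hAA0.le hCc).trans hP
  have hP1 : 1 ≤ P := hP01.trans ((le_max_left _ _).trans hPA)
  have hPpos : 0 < P := by linarith
  have hlPx : x ≤ Real.log P := by
    rw [← Real.log_exp x]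
    exact Real.log_le_log (Real.exp_pos _) ((le_max_right _ _).trans hPA)
  have hlCP : c / r * Real.log C ≤ Real.log P := by
    rw [← Real.log_rpow hC0]
    refine Real.log_le_log (by positivity) ((le_mul_of_one_le_left (by positivity) ?_).trans hP)
    exact hP01.trans (le_max_left _ _)
  have hs : 1 ≤ Real.log P / x := by rwa [one_le_div hx]
  set s : ℝ := Real.log P / x with hsd
  have hs0 : 0 < s := by linarith
  have hLs : Real.log P / s = x := by
    have : Real.log P ≠ 0 := by linarith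
    rw [hsd]
    field_simp
  set F : Fin r → HeightOneSpectrum (𝓞 K) → ℝ := fun i v => if v ∈ S i then B else ‖∑ j, α i v j‖ ^ 2 with hF
  have hF0 : ∀ i v, 0 ≤ F i v := by
    intro i v
    simp only [hF]
    split_ifs
    · exact hB
    · positivity
  set T : Finset (HeightOneSpectrum (𝓞 K)) := (PP K P).filter fun v => ∑ i, F i v < m * r with hT
  have hTP : T ⊆ PP K P := Finset.filter_subset _ _
  refine ⟨T, hP0 P ((le_max_left _ _).trans hPA) T hTP ?_, fun v hv => ?_⟩
  swap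
  · have h1 := Finset.mem_filter.1 hv
    exact ⟨mem_PP'.1 h1.1, h1.2⟩
  set w : HeightOneSpectrum (𝓞 K) → ℝ := fun v => Real.log (Nv v) / Nv v with hw
  set g : HeightOneSpectrum (𝓞 K) → ℝ := fun v => Real.exp (-(Real.log (Nv v)) ^ 2 / (2 * s ^ 2)) with hg
  have hw0 : ∀ v, 0 ≤ w v := fun v =>
    div_nonneg (Pool.Agent.U828.DU.D.log_Nv_pos v).le (Pool.Agent.U828.DU.D.Nv_pos v).le
  have hg0 : ∀ v, 0 ≤ g v := fun v => (Real.exp_pos _).le
  have hg1 : ∀ v, g v ≤ 1 := fun v => Real.exp_le_one_iff.2 (by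
    rw [neg_div]
    exact neg_nonpos.2 (by positivity))
  have hwg : ∀ v, w v * g v ≤ w v := fun v => mul_le_of_le_one_right (hw0 v) (hg1 v)
  have hwg0 : ∀ v, 0 ≤ w v * g v := fun v => mul_nonneg (hw0 v) (hg0 v)
  -- upper bound
  have hupi : ∀ i, ∑ v ∈ PP K P, F i v * (w v * g v) ≤
      √(Real.pi / 2) * s + (1 / 4 + 2 * ε) * Real.log (Ci i) + (A₂ + B * C₁) := by
    intro i
    have h0 := Finset.sum_filter_add_sum_filter_not (PP K P) (fun v => v ∈ S i) (fun v => F i v * (w v * g v))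
    have h1 : ∑ v ∈ (PP K P).filter (fun v => v ∈ S i), F i v * (w v * g v) ≤
        B * (η' * Real.log (Ci i) + C₁) := by
      calc ∑ v ∈ (PP K P).filter (fun v => v ∈ S i), F i v * (w v * g v) ≤
          ∑ v ∈ (PP K P).filter (fun v => v ∈ S i), B * w v := by
            refine Finset.sum_le_sum fun v hv => ?_
            have h2 : F i v = B := if_pos (Finset.mem_filter.1 hv).2
            rw [h2]
            exact mul_le_mul_of_nonneg_left (hwg v) hB
        _ ≤ ∑ v ∈ S i, B * w v :=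
            Finset.sum_le_sum_of_subset_of_nonneg (fun v hv => (Finset.mem_filter.1 hv).2)
              fun v _ _ => mul_nonneg hB (hw0 v)
        _ = B * ∑ v ∈ S i, w v := by rw [Finset.mul_sum]
        _ ≤ _ := by
            refine mul_le_mul_of_nonneg_left ((hbad (S i)).trans ?_) hB
            have h1 : ∑ v ∈ S i, Real.log (Nv v) ≤ Real.log (Ci i) := by
              rw [← Real.log_prod fun v _ => (Pool.Agent.U828.DU.D.Nv_pos v).ne']
              exact Real.log_le_log (Finset.prod_pos fun v _ => Pool.Agent.U828.DU.D.Nv_pos v)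
                ((hS i).trans (hqC i))
            have := mul_le_mul_of_nonneg_left h1 hη'0.le
            linarith
    have h2 : ∑ v ∈ (PP K P).filter (fun v => ¬ v ∈ S i), F i v * (w v * g v) ≤
        √(Real.pi / 2) * s + (1 / 4 + ε) * Real.log (Ci i) + A₂ := by
      refine le_trans (le_of_eq ?_) (hB2 (n i) (N i) (hn i) (hN i) (S i) (α i) (u i) (q i) (κ i) (hrep i) (hrs i)
        s hs ((PP K P).filter (fun v => ¬ v ∈ S i)) fun v hv => (Finset.mem_filter.1 hv).2)
      refine Finset.sum_congr rfl fun v hv => ?_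
      have h3 : F i v = ‖∑ j, α i v j‖ ^ 2 := if_neg (Finset.mem_filter.1 hv).2
      rw [h3, mul_assoc]
    have hBη : B * η' ≤ ε := by
      rw [hη', mul_div_assoc', div_le_iff₀ (by positivity)]
      nlinarith
    have hl0 : 0 ≤ Real.log (Ci i) := Real.log_nonneg (hCi1 i)
    have h3 := mul_le_mul_of_nonneg_right hBη hl0
    rw [← h0]
    linarith
  have hup : ∑ v ∈ PP K P, (∑ i, F i v) * (w v * g v) ≤
      r * √(Real.pi / 2) * s + (1 / 4 + 2 * ε) * Real.log C + r * (A₂ + B * C₁) := by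
    calc ∑ v ∈ PP K P, (∑ i, F i v) * (w v * g v) = ∑ i, ∑ v ∈ PP K P, F i v * (w v * g v) := by
          rw [Finset.sum_comm]
          refine Finset.sum_congr rfl fun v _ => ?_
          rw [Finset.sum_mul]
      _ ≤ ∑ i, (√(Real.pi / 2) * s + (1 / 4 + 2 * ε) * Real.log (Ci i) + (A₂ + B * C₁)) :=
          Finset.sum_le_sum fun i _ => hupi i
      _ = _ := by
          rw [Finset.sum_add_distrib, Finset.sum_add_distrib, Finset.sum_const, Finset.sum_const, Finset.card_univ,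
            Fintype.card_fin, nsmul_eq_mul, nsmul_eq_mul, ← Finset.mul_sum, hlC]
          ring
  -- lower bound
  have hlow : m * r * (∑ v ∈ PP K P, w v * g v - ∑ v ∈ T, w v) ≤
      ∑ v ∈ PP K P, (∑ i, F i v) * (w v * g v) := by
    have h1 : m * r * ∑ v ∈ (PP K P).filter (fun v => ¬ ∑ i, F i v < m * r), w v * g v ≤
        ∑ v ∈ PP K P, (∑ i, F i v) * (w v * g v) := by
      rw [Finset.mul_sum]
      refine (Finset.sum_le_sum fun v hv => ?_).trans
        (Finset.sum_le_sum_of_subset_of_nonneg (Finset.filter_subset _ _) fun v _ _ =>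
          mul_nonneg (Finset.sum_nonneg fun i _ => hF0 i v) (hwg0 v))
      exact mul_le_mul_of_nonneg_right (not_lt.1 (Finset.mem_filter.1 hv).2) (hwg0 v)
    refine le_trans (mul_le_mul_of_nonneg_left ?_ (by positivity)) h1
    have h2 := Finset.sum_filter_add_sum_filter_not (PP K P) (fun v => ∑ i, F i v < m * r)
      (fun v => w v * g v)
    have h3 : ∑ v ∈ (PP K P).filter (fun v => ∑ i, F i v < m * r), w v * g v ≤ ∑ v ∈ T, w v :=
      Finset.sum_le_sum fun v _ => hwg v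
    linarith
  have hmert := hG s hs0 P hP1
  rw [II_scale hs0, hLs] at hmert
  change (1 - η) * (s * II x) - A₀ ≤ ∑ v ∈ PP K P, w v * g v at hmert
  -- assemble
  have hmain : m * r * ((1 - η) * (s * II x) - A₀) -
      (r * √(Real.pi / 2) * s + (1 / 4 + 2 * ε) * Real.log C + r * (A₂ + B * C₁)) ≤ m * r * ∑ v ∈ T, w v := by
    have h1 : m * r * ((1 - η) * (s * II x) - A₀ - ∑ v ∈ T, w v) ≤
        m * r * (∑ v ∈ PP K P, w v * g v - ∑ v ∈ T, w v) :=
      mul_le_mul_of_nonneg_left (by linarith) (by positivity)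
    have h2 := h1.trans (hlow.trans hup)
    linarith
  have h1 : (1 / 4 + 2 * ε) * Real.log C ≤ r * ((1 / 4 + 2 * ε) * (Real.log P / c)) := by
    have h2 : Real.log C ≤ r * (Real.log P / c) := by
      have h3 : c / r * Real.log C * (r / c) ≤ Real.log P * (r / c) :=
        mul_le_mul_of_nonneg_right hlCP (by positivity)
      have h4 : c / r * Real.log C * (r / c) = Real.log C := by field_simp
      rw [h4] at h3
      refine h3.trans (le_of_eq ?_)
      ring
    calc (1 / 4 + 2 * ε) * Real.log C ≤ (1 / 4 + 2 * ε) * (r * (Real.log P / c)) :=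
          mul_le_mul_of_nonneg_left h2 (by positivity)
      _ = _ := by ring
  have hlPs : Real.log P = s * x := by
    rw [hsd]
    field_simp
  have h2 : (1 / 4 + 2 * ε) * (Real.log P / c) = s * (x / (4 * c)) + s * (gap / 2) := by
    rw [hlPs, hε]
    field_simp
    ring
  have h3 : gap / (4 * x) * Real.log P = s * (gap / 4) := by
    rw [hlPs]
    field_simp
  have h4 : s * (η * (m * II x)) ≤ s * (gap / 4) := mul_le_mul_of_nonneg_left hηg hs0.le
  have h5 : r * (gap / (4 * x) * Real.log P - Atot) ≤ r * (m * ∑ v ∈ T, w v) := by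
    refine le_trans ?_ (hmain.trans (le_of_eq (by ring)))
    have e1 : m * r * ((1 - η) * (s * II x) - A₀) -
        (r * √(Real.pi / 2) * s + (1 / 4 + 2 * ε) * Real.log C + r * (A₂ + B * C₁)) =
        r * (s * D - s * (η * (m * II x)) - Atot) - (1 / 4 + 2 * ε) * Real.log C := by
      rw [hDd, hAtot]
      ring
    rw [e1, h3]
    have e3 : s * D = s * gap + s * (x / (4 * c)) := by
      rw [hgapd]
      ring
    have e4 : r * ((1 / 4 + 2 * ε) * (Real.log P / c)) = r * (s * (x / (4 * c)) + s * (gap / 2)) := by rw [h2]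
    rw [e4] at h1
    have e5 : r * (s * (gap / 4) - Atot) ≤ r * (s * D - s * (η * (m * II x)) - Atot -
        (s * (x / (4 * c)) + s * (gap / 2))) := by
      refine mul_le_mul_of_nonneg_left ?_ hr0.le
      linarith
    have e6 : r * (s * D - s * (η * (m * II x)) - Atot - (s * (x / (4 * c)) + s * (gap / 2))) =
        r * (s * D - s * (η * (m * II x)) - Atot) - r * (s * (x / (4 * c)) + s * (gap / 2)) := by ring
    linarith
  have h6 := le_of_mul_le_mul_left h5 hr0
  have h7 : m * (gap / (4 * x) / m * Real.log P - Atot / m) = gap / (4 * x) * Real.log P - Atot := by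
    field_simp
  exact le_of_mul_le_mul_left (h7.le.trans h6) hm

end Pool.Agent.U985.UK
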