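import Pool.Agent.U985.UT.Low
import Pool.Agent.U985.UT.SymSq

/-! Numerical facts. -/

set_option autoImplicit false

namespace Pool.Agent.U985.UK

open MeasureTheory Filter Topology
open Pool.Agent.U985.UT (II II_tendsto II_ge' sqrt_pi_half norm_pair prod_norm_one three_lower)

theorem exp_neg_ge9 {u : ℝ} (hu : 0 ≤ u) : 1 - u + u ^ 2 / 2 - u ^ 3 / 6 + u ^ 4 / 24 - u ^ 5 / 120 + u ^ 6 / 720 -
    u ^ 7 / 5040 + u ^ 8 / 40320 - u ^ 9 / 362880 ≤ Real.exp (-u) := by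
  set p : ℝ → ℝ := fun v => 1 - v + v ^ 2 / 2 - v ^ 3 / 6 + v ^ 4 / 24 - v ^ 5 / 120 + v ^ 6 / 720 -
    v ^ 7 / 5040 + v ^ 8 / 40320 - v ^ 9 / 362880 with hp
  have hd : ∀ v : ℝ, HasDerivAt (fun v : ℝ => Real.exp v * p v) (Real.exp v * (-(v ^ 9 / 362880))) v := by
    intro v
    have h1 : HasDerivAt p (-1 + v - v ^ 2 / 2 + v ^ 3 / 6 - v ^ 4 / 24 + v ^ 5 / 120 - v ^ 6 / 720 +
        v ^ 7 / 5040 - v ^ 8 / 40320) v := by
      have h2 := (((((((((hasDerivAt_id v).const_sub 1).add ((hasDerivAt_pow 2 v).div_const 2)).sub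
        ((hasDerivAt_pow 3 v).div_const 6)).add ((hasDerivAt_pow 4 v).div_const 24)).sub
        ((hasDerivAt_pow 5 v).div_const 120)).add ((hasDerivAt_pow 6 v).div_const 720)).sub
        ((hasDerivAt_pow 7 v).div_const 5040)).add ((hasDerivAt_pow 8 v).div_const 40320)).sub
        ((hasDerivAt_pow 9 v).div_const 362880)
      refine HasDerivAt.congr_deriv (f := p) h2 ?_
      norm_num
      ring
    refine ((Real.hasDerivAt_exp v).mul h1).congr_deriv ?_
    simp only [hp]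
    ring
  have hanti : AntitoneOn (fun v : ℝ => Real.exp v * p v) (Set.Ici 0) := by
    refine antitoneOn_of_deriv_nonpos (convex_Ici 0)
      (fun v _ => (hd v).differentiableAt.continuousAt.continuousWithinAt)
      (fun v _ => (hd v).differentiableAt.differentiableWithinAt) fun v hv => ?_
    rw [interior_Ici] at hv
    rw [(hd v).deriv]
    have : 0 < v := hv
    have h3 : 0 ≤ Real.exp v * (v ^ 9 / 362880) := by positivity
    linarith
  have h1 := hanti (Set.mem_Ici.2 le_rfl) (Set.mem_Ici.2 hu) hu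
  have h0 : p 0 = 1 := by simp [hp]
  simp only [Real.exp_zero, h0, one_mul] at h1
  have h2 : Real.exp u * Real.exp (-u) = 1 := by rw [← Real.exp_add, add_neg_cancel, Real.exp_zero]
  have h3 : 0 < Real.exp u := Real.exp_pos u
  exact le_of_mul_le_mul_left (h1.trans (le_of_eq h2.symm)) h3

theorem II_ge9 {x : ℝ} (hx : 0 ≤ x) : x - x ^ 3 / 6 + x ^ 5 / 40 - x ^ 7 / 336 + x ^ 9 / 3456 - x ^ 11 / 42240 +
    x ^ 13 / 599040 - x ^ 15 / 9676800 + x ^ 17 / 175472640 - x ^ 19 / 3530096640 ≤ II x := by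
  set p : ℝ → ℝ := fun v => 1 - v + v ^ 2 / 2 - v ^ 3 / 6 + v ^ 4 / 24 - v ^ 5 / 120 + v ^ 6 / 720 -
    v ^ 7 / 5040 + v ^ 8 / 40320 - v ^ 9 / 362880 with hp
  have hpc : Continuous fun t : ℝ => p (t ^ 2 / 2) := by
    simp only [hp]
    fun_prop
  have h1 : ∫ t in (0 : ℝ)..x, p (t ^ 2 / 2) ≤ II x := by
    unfold II
    refine intervalIntegral.integral_mono_on hx (hpc.intervalIntegrable _ _)
      ((by fun_prop : Continuous fun t : ℝ => Real.exp (-t ^ 2 / 2)).intervalIntegrable _ _) fun t _ => ?_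
    have := exp_neg_ge9 (show 0 ≤ t ^ 2 / 2 by positivity)
    rwa [← neg_div] at this
  refine le_trans (le_of_eq ?_) h1
  have h2 : ∀ t ∈ Set.uIcc 0 x, HasDerivAt (fun t : ℝ => t - t ^ 3 / 6 + t ^ 5 / 40 - t ^ 7 / 336 + t ^ 9 / 3456 -
      t ^ 11 / 42240 + t ^ 13 / 599040 - t ^ 15 / 9676800 + t ^ 17 / 175472640 - t ^ 19 / 3530096640)
      (p (t ^ 2 / 2)) t := by
    intro t _
    have h3 := (((((((((hasDerivAt_id t).sub ((hasDerivAt_pow 3 t).div_const 6)).add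
      ((hasDerivAt_pow 5 t).div_const 40)).sub ((hasDerivAt_pow 7 t).div_const 336)).add
      ((hasDerivAt_pow 9 t).div_const 3456)).sub ((hasDerivAt_pow 11 t).div_const 42240)).add
      ((hasDerivAt_pow 13 t).div_const 599040)).sub ((hasDerivAt_pow 15 t).div_const 9676800)).add
      ((hasDerivAt_pow 17 t).div_const 175472640)).sub ((hasDerivAt_pow 19 t).div_const 3530096640)
    refine HasDerivAt.congr_deriv (f := fun t : ℝ => t - t ^ 3 / 6 + t ^ 5 / 40 - t ^ 7 / 336 + t ^ 9 / 3456 -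
      t ^ 11 / 42240 + t ^ 13 / 599040 - t ^ 15 / 9676800 + t ^ 17 / 175472640 - t ^ 19 / 3530096640) h3 ?_
    simp only [hp]
    norm_num
    ring
  rw [intervalIntegral.integral_eq_sub_of_hasDerivAt h2 (hpc.intervalIntegrable _ _)]
  ring

theorem spi : √(Real.pi / 2) < 1.25332 := by
  rw [Real.sqrt_lt' (by norm_num)]
  have := Real.pi_lt_d4
  norm_num at this ⊢
  linarith

/-- the condition for the exponent `c` -/
def Adm (m c : ℝ) : Prop := ∃ x : ℝ, 0 < x ∧ 0 < m * II x - √(Real.pi / 2) ∧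
  x / (4 * (m * II x - √(Real.pi / 2))) < c

theorem adm_of {m c x y : ℝ} (hm : 0 < m) (hc : 0 < c) (hx : 0 < x) (hy : y ≤ II x)
    (h : x / (4 * c) < m * y - 1.25332) : Adm m c := by
  have h1 := mul_le_mul_of_nonneg_left hy hm.le
  have h2 := spi
  have h3 : x / (4 * c) < m * II x - √(Real.pi / 2) := by linarith
  have h4 : 0 < m * II x - √(Real.pi / 2) := lt_trans (by positivity) h3
  refine ⟨x, hx, h4, ?_⟩
  rw [div_lt_iff₀ (by positivity)] at h3 ⊢
  linarith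

theorem adm1 : Adm 4 0.115 := by
  refine adm_of (by norm_num) (by norm_num) (x := 1.1) (by norm_num) (II_ge9 (by norm_num)) ?_
  norm_num

theorem adm2 : Adm 2 0.41 := by
  refine adm_of (by norm_num) (by norm_num) (x := 1.55) (by norm_num) (II_ge9 (by norm_num)) ?_
  norm_num

theorem adm3 : Adm (4 / 3) 1.47 := by
  refine adm_of (by norm_num) (by norm_num) (x := 2.1) (by norm_num) (II_ge9 (by norm_num)) ?_
  norm_num

theorem adm_gl3 : Adm (9 / 4) (1 / 3) := by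
  refine adm_of (by norm_num) (by norm_num) (x := 1.4) (by norm_num) (II_ge9 (by norm_num)) ?_
  norm_num

theorem adm_n {M : ℝ} (hM : 16 / 9 ≤ M) : Adm (M ^ 2) (1 / (4 * M * (M - 1))) := by
  have hM0 : 0 < M := by linarith
  set r : ℝ := √(2 * M) with hr
  have hr2 : r ^ 2 = 2 * M := Real.sq_sqrt (by positivity)
  have hr0 : 0 < r := Real.sqrt_pos.2 (by positivity)
  have hr1 : 1.8801 < r * 1 := by
    rw [mul_one, hr]
    refine Real.lt_sqrt_of_sq_lt ?_
    norm_num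
    linarith
  set x : ℝ := r / M with hx
  have hx0 : 0 < x := by positivity
  have h1 := II_ge' hx0.le
  have h2 : M ^ 2 * (x - x ^ 3 / 6) = M * r - r / 3 := by
    have h3 : x ^ 3 = 2 * r / M ^ 2 := by
      rw [hx, div_pow]
      have : r ^ 3 = 2 * M * r := by rw [pow_succ, hr2]
      rw [this]
      field_simp
    rw [h3, hx]
    field_simp
    ring
  have h3 : M * r - r / 3 ≤ M ^ 2 * II x := by
    rw [← h2]
    exact mul_le_mul_of_nonneg_left h1 (by positivity)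
  have h4 := sqrt_pi_half
  have h5 : (M - 1) * r < M ^ 2 * II x - √(Real.pi / 2) := by
    have : (M - 1) * r + 2 / 3 * r = M * r - r / 3 := by ring
    linarith
  have h6 : 0 < M - 1 := by linarith
  have h7 : 0 < M ^ 2 * II x - √(Real.pi / 2) := lt_trans (by positivity) h5
  refine ⟨x, hx0, h7, ?_⟩
  rw [div_lt_div_iff₀ (by positivity) (by positivity), one_mul]
  have h8 : x * (4 * M * (M - 1)) = 4 * ((M - 1) * r) := by
    rw [hx]
    field_simp
  rw [h8]
  linarith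

theorem adm_gt {m : ℝ} (hm : 1 < m) : ∃ c : ℝ, 0 < c ∧ Adm m c := by
  have h1 : Tendsto (fun x => m * II x - √(Real.pi / 2)) atTop (𝓝 (m * √(Real.pi / 2) - √(Real.pi / 2))) :=
    (II_tendsto.const_mul m).sub_const _
  have h0 : 0 < √(Real.pi / 2) := Real.sqrt_pos.2 (by positivity)
  have h2 : 0 < m * √(Real.pi / 2) - √(Real.pi / 2) := by nlinarith
  obtain ⟨x, hx1, hx2⟩ := ((h1.eventually (lt_mem_nhds h2)).and (eventually_gt_atTop 0)).exists
  refine ⟨x / (4 * (m * II x - √(Real.pi / 2))) + 1, by positivity, x, hx2, hx1, by linarith⟩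

/-! ### the parameters -/

theorem two_temp {a : Fin 2 → ℂ} (h0 : ∀ i, a i ≠ 0)
    (hU : ∃ τ : Equiv.Perm (Fin 2), ∀ i, a (τ i) = ((starRingEnd ℂ) (a i))⁻¹) (hs : ‖∑ i, a i‖ < 2) :
    ∀ i, ‖a i‖ = 1 := by
  obtain ⟨τ, hτ⟩ := hU
  have hfix : ∀ i, τ i = i → ‖a i‖ = 1 := by
    intro i h1
    have h2 := hτ i
    rw [h1] at h2
    have hn0 : 0 < ‖a i‖ := norm_pos_iff.2 (h0 i)
    have := congrArg norm h2
    rw [norm_inv, RCLike.norm_conj] at this
    have h4 : ‖a i‖ * ‖a i‖ = 1 := by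
      nth_rewrite 1 [this]
      exact inv_mul_cancel₀ hn0.ne'
    nlinarith
  rcases Fin.exists_fin_two.1 ⟨τ 0, rfl⟩ with h | h
  · have h1 : τ 1 = 1 := by
      rcases Fin.exists_fin_two.1 ⟨τ 1, rfl⟩ with h2 | h2
      · exact absurd (τ.injective (h2.trans h.symm) : (1 : Fin 2) = 0) (by decide)
      · exact h2
    intro i
    fin_cases i
    · exact hfix 0 h
    · exact hfix 1 h1
  · exfalso
    have h1 := hτ 0
    rw [h] at h1
    rw [Fin.sum_univ_two, h1, norm_pair (h0 0)] at hs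
    have hn0 : 0 < ‖a 0‖ := norm_pos_iff.2 (h0 0)
    have h2 : ‖a 0‖ + 1 / ‖a 0‖ - 2 = (‖a 0‖ - 1) ^ 2 / ‖a 0‖ := by
      field_simp
      ring
    have h3 : 0 ≤ (‖a 0‖ - 1) ^ 2 / ‖a 0‖ := by positivity
    linarith

theorem three_nearly {a : Fin 3 → ℂ} (h0 : ∀ i, a i ≠ 0)
    (hU : ∃ τ : Equiv.Perm (Fin 3), ∀ i, a (τ i) = ((starRingEnd ℂ) (a i))⁻¹) (hs : ‖∑ i, a i‖ < 3 / 2) (i : Fin 3) :
    1 / 2 < ‖a i‖ ∧ ‖a i‖ < 2 := by
  by_cases hi : ‖a i‖ = 1
  · rw [hi]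
    norm_num
  · have h1 := three_lower h0 hU hi
    have hn0 : 0 < ‖a i‖ := norm_pos_iff.2 (h0 i)
    have h2 : ‖a i‖ + 1 / ‖a i‖ < 5 / 2 := by linarith
    have h3 : (‖a i‖ - 1 / 2) * (‖a i‖ - 2) < 0 := by
      have h4 : (‖a i‖ - 1 / 2) * (‖a i‖ - 2) = ‖a i‖ * (‖a i‖ + 1 / ‖a i‖ - 5 / 2) := by
        field_simp
        ring
      rw [h4]
      exact mul_neg_of_pos_of_neg hn0 (by linarith)
    constructor
    · by_contra h4
      push Not at h4
      nlinarith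
    · by_contra h4
      push Not at h4
      nlinarith

end Pool.Agent.U985.UK
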