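import Pool.Agent.U985.UK.ManyU
import Pool.Agent.U985.UK.Num

/-! Consequences of `manyU`. -/

set_option autoImplicit false

namespace Pool.Agent.U985.UK

open NumberField IsDedekindDomain
open Pool.Agent.N846.DU

open Classical in
/-- families of representations of the same group -/
theorem fam (K : Type) [Field K] [NumberField K] (n N : ℕ) {m B c : ℝ} (hm : 0 < m) (hB : 0 ≤ B) (hc : Adm m c) :
    ∃ A δ : ℝ, 0 < A ∧ 0 < δ ∧ ∀ (r : ℕ), 1 ≤ r →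
    ∀ (S : Fin r → Finset (HeightOneSpectrum (𝓞 K))) (α : Fin r → HeightOneSpectrum (𝓞 K) → Fin n → ℂ)
      (u : Fin r → VX K → ℂ) (q : Fin r → ℝ) (κ : Fin r → Fin N → ℂ),
      (∀ i, Rep n (S i) (α i) (u i)) → (∀ i, RS (u i) (u i) (q i) (κ i) 1) →
      (∀ i, ∏ v ∈ S i, Nv v ≤ q i) →
      ∀ P : ℝ, A * (∏ i, (q i * ∏ j, (1 + ‖κ i j‖))) ^ (c / r) ≤ P →
        ∃ T : Finset (HeightOneSpectrum (𝓞 K)), P ^ δ ≤ (T.card : ℝ) ∧
          ∀ v ∈ T, Nv v ≤ P ∧ ∑ i, (if v ∈ S i then B else ‖∑ j, α i v j‖ ^ 2) < m * r := by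
  obtain ⟨x, hx, hD, hcx⟩ := hc
  obtain ⟨A, δ, hA, hδ, h⟩ := manyU K n N hm hB hx hD hcx
  exact ⟨A, δ, hA, hδ, fun r hr S α u q κ h1 h2 h3 P hP =>
    h r hr (fun _ => n) (fun _ => N) (fun _ => le_rfl) (fun _ => le_rfl) S α u q κ h1 h2 h3 P hP⟩

/-- the number of the good members -/
theorem good_card {r : ℕ} (F : Fin r → Prop) [DecidablePred F] (lam : Fin r → ℝ) {n m : ℝ} (hn : 0 < n)
    (h : ∑ i, (if F i then n ^ 2 else lam i ^ 2) < m * r) :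
    ∃ G : Finset (Fin r), (1 - m / n ^ 2) * r < (G.card : ℝ) ∧ ∀ i ∈ G, ¬ F i ∧ lam i < n := by
  classical
  refine ⟨Finset.univ.filter fun i => ¬ F i ∧ lam i < n, ?_, fun i hi => (Finset.mem_filter.1 hi).2⟩
  have h1 : ((Finset.univ.filter fun i => ¬ (¬ F i ∧ lam i < n)).card : ℝ) * n ^ 2 ≤
      ∑ i, (if F i then n ^ 2 else lam i ^ 2) := by
    calc ((Finset.univ.filter fun i => ¬ (¬ F i ∧ lam i < n)).card : ℝ) * n ^ 2 =
        ∑ i ∈ Finset.univ.filter (fun i => ¬ (¬ F i ∧ lam i < n)), n ^ 2 := by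
          rw [Finset.sum_const, nsmul_eq_mul]
      _ ≤ ∑ i ∈ Finset.univ.filter (fun i => ¬ (¬ F i ∧ lam i < n)), (if F i then n ^ 2 else lam i ^ 2) := by
          refine Finset.sum_le_sum fun i hi => ?_
          have h2 := (Finset.mem_filter.1 hi).2
          split_ifs with h3
          · exact le_rfl
          · have h4 : n ≤ lam i := by
              by_contra h5
              exact h2 ⟨h3, not_le.1 h5⟩
            exact pow_le_pow_left₀ hn.le h4 2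
      _ ≤ _ := by
          refine Finset.sum_le_sum_of_subset_of_nonneg (Finset.filter_subset _ _) fun i _ _ => ?_
          split_ifs <;> positivity
  have h2 : ((Finset.univ.filter fun i => ¬ F i ∧ lam i < n).card : ℝ) +
      ((Finset.univ.filter fun i => ¬ (¬ F i ∧ lam i < n)).card : ℝ) = r := by
    have := Finset.card_filter_add_card_filter_not (s := (Finset.univ : Finset (Fin r)))
      (fun i => ¬ F i ∧ lam i < n)
    rw [Finset.card_univ, Fintype.card_fin] at this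
    exact_mod_cast this
  have h3 := h1.trans_lt h
  have hn2 : 0 < n ^ 2 := by positivity
  have h4 : ((Finset.univ.filter fun i => ¬ (¬ F i ∧ lam i < n)).card : ℝ) < m / n ^ 2 * r := by
    rw [← lt_div_iff₀ hn2] at h3
    refine h3.trans_le (le_of_eq ?_)
    ring
  linarith

/-- most members of a family -/
theorem famMost (K : Type) [Field K] [NumberField K] (n N : ℕ) (hn : 1 ≤ n) {m c : ℝ} (hm : 0 < m) (hc : Adm m c) :
    ∃ A δ : ℝ, 0 < A ∧ 0 < δ ∧ ∀ (r : ℕ), 1 ≤ r →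
    ∀ (S : Fin r → Finset (HeightOneSpectrum (𝓞 K))) (α : Fin r → HeightOneSpectrum (𝓞 K) → Fin n → ℂ)
      (u : Fin r → VX K → ℂ) (q : Fin r → ℝ) (κ : Fin r → Fin N → ℂ),
      (∀ i, Rep n (S i) (α i) (u i)) → (∀ i, RS (u i) (u i) (q i) (κ i) 1) →
      (∀ i, ∏ v ∈ S i, Nv v ≤ q i) →
      ∀ P : ℝ, A * (∏ i, (q i * ∏ j, (1 + ‖κ i j‖))) ^ (c / r) ≤ P →
        ∃ T : Finset (HeightOneSpectrum (𝓞 K)), P ^ δ ≤ (T.card : ℝ) ∧
          ∀ v ∈ T, Nv v ≤ P ∧ ∃ G : Finset (Fin r), (1 - m / n ^ 2) * r < (G.card : ℝ) ∧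
            ∀ i ∈ G, v ∉ S i ∧ ‖∑ j, α i v j‖ < n := by
  classical
  have hn0 : (0 : ℝ) < n := by exact_mod_cast hn
  obtain ⟨A, δ, hA, hδ, h⟩ := fam K n N hm (sq_nonneg (n : ℝ)) hc
  refine ⟨A, δ, hA, hδ, fun r hr S α u q κ h1 h2 h3 P hP => ?_⟩
  obtain ⟨T, hT1, hT2⟩ := h r hr S α u q κ h1 h2 h3 P hP
  exact ⟨T, hT1, fun v hv => ⟨(hT2 v hv).1,
    good_card (fun i => v ∈ S i) (fun i => ‖∑ j, α i v j‖) hn0 (hT2 v hv).2⟩⟩

/-- all members of a small family: `m r ≤ n²` -/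
theorem famAll (K : Type) [Field K] [NumberField K] (n N : ℕ) (hn : 1 ≤ n) {m c : ℝ} (hm : 0 < m) (hc : Adm m c)
    (r : ℕ) (hr : 1 ≤ r) (hmr : m * r ≤ n ^ 2) :
    ∃ A δ : ℝ, 0 < A ∧ 0 < δ ∧
    ∀ (S : Fin r → Finset (HeightOneSpectrum (𝓞 K))) (α : Fin r → HeightOneSpectrum (𝓞 K) → Fin n → ℂ)
      (u : Fin r → VX K → ℂ) (q : Fin r → ℝ) (κ : Fin r → Fin N → ℂ),
      (∀ i, Rep n (S i) (α i) (u i)) → (∀ i, RS (u i) (u i) (q i) (κ i) 1) →
      (∀ i, ∏ v ∈ S i, Nv v ≤ q i) →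
      ∀ P : ℝ, A * (∏ i, (q i * ∏ j, (1 + ‖κ i j‖))) ^ (c / r) ≤ P →
        ∃ T : Finset (HeightOneSpectrum (𝓞 K)), P ^ δ ≤ (T.card : ℝ) ∧
          ∀ v ∈ T, Nv v ≤ P ∧ ∀ i, v ∉ S i ∧ ‖∑ j, α i v j‖ < n := by
  obtain ⟨A, δ, hA, hδ, h⟩ := famMost K n N hn hm hc
  refine ⟨A, δ, hA, hδ, fun S α u q κ h1 h2 h3 P hP => ?_⟩
  obtain ⟨T, hT1, hT2⟩ := h r hr S α u q κ h1 h2 h3 P hP
  refine ⟨T, hT1, fun v hv => ⟨(hT2 v hv).1, ?_⟩⟩
  obtain ⟨G, hG1, hG2⟩ := (hT2 v hv).2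
  have hn0 : (0 : ℝ) < n := by exact_mod_cast hn
  have hr0 : (0 : ℝ) < r := by exact_mod_cast hr
  have h4 : (r : ℝ) - 1 < G.card := by
    refine lt_of_le_of_lt ?_ hG1
    have : m / n ^ 2 * r ≤ 1 := by
      rw [div_mul_eq_mul_div, div_le_one (by positivity)]
      exact hmr
    linarith
  have h5 : r ≤ G.card := by
    have : (r : ℝ) < G.card + 1 := by linarith
    have h6 : r < G.card + 1 := by exact_mod_cast this
    omega
  have h6 : G = Finset.univ := by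
    refine Finset.eq_univ_of_card _ ?_
    have h7 := Finset.card_le_univ G
    rw [Fintype.card_fin] at h7 ⊢
    omega
  intro i
  exact hG2 i (by rw [h6]; exact Finset.mem_univ i)

end Pool.Agent.U985.UK
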