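import Pool.Agent.U985.UK.MertK
import Pool.Agent.N753.LS.Mert

/-! Mertens' theorem with Gaussian weights outside a set of places; from the mass to the number of places. -/

set_option autoImplicit false

namespace Pool.Agent.U985.UK

open MeasureTheory Filter Topology NumberField IsDedekindDomain
open Pool.Agent.U985.UT (II II_scale)
open Pool.Agent.H691R3 Pool.Agent.TH876.Loc Pool.Agent.N753.LS

variable (K : Type) [Field K] [NumberField K]

theorem mert_gaussK {η : ℝ} (hη : 0 < η) (hη1 : η ≤ 1) : ∃ A₀ : ℝ, 0 ≤ A₀ ∧ ∀ s : ℝ, 0 < s → ∀ P : ℝ, 1 ≤ P →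
    (1 - η) * (∫ t in (0 : ℝ)..Real.log P, Real.exp (-t ^ 2 / (2 * s ^ 2))) - A₀ ≤
      ∑ v ∈ PP K P, Real.log (Nv v) / Nv v * Real.exp (-(Real.log (Nv v)) ^ 2 / (2 * s ^ 2)) := by
  obtain ⟨C, hC, h⟩ := mertens_lower K hη
  refine ⟨C + 1, by linarith, fun s hs P hP => ?_⟩
  exact gauss_low (PP K) (fun v => Real.log (Nv v) / Nv v) (fun v => Real.log (Nv v))
    (fun v => div_nonneg (log_Nv_pos v).le (Nv_pos v).le) (fun v => (log_Nv_pos v).le)
    (fun z hz v => by rw [mem_PP, Real.log_le_log_iff (Nv_pos v) hz]) hC (by linarith) (by linarith)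
    h s hs P hP

/-- upper bound in Mertens' theorem -/
theorem mertens_upper : ∃ B : ℝ, 0 < B ∧ ∀ z : ℝ, 1 ≤ z →
    ∑ v ∈ PP K z, Real.log (Nv v) / Nv v ≤ B * (Real.log z + 1) := by
  classical
  obtain ⟨C, hC, h⟩ := theta_le K
  refine ⟨2 * (C + 1) * (1 / Real.log 2 + 1), by
    have := Real.log_pos (show (1 : ℝ) < 2 by norm_num)
    positivity, fun z hz => ?_⟩
  have hz0 : 0 < z := by linarith
  have hl2 : 0 < Real.log 2 := Real.log_pos (by norm_num)
  have hlz : 0 ≤ Real.log z := Real.log_nonneg hz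
  set m : ℕ := ⌊Real.log z / Real.log 2⌋₊ with hm
  have hm1 : Real.log z < ((m : ℝ) + 1) * Real.log 2 := by
    have := Nat.lt_floor_add_one (Real.log z / Real.log 2)
    rwa [div_lt_iff₀ hl2] at this
  have hm2 : (m : ℝ) ≤ Real.log z / Real.log 2 := Nat.floor_le (by positivity)
  -- the class of a place
  set k : Pr K → ℕ := fun v => ⌊Real.log (Nv v) / Real.log 2⌋₊ with hk
  have hk1 : ∀ v, (2 : ℝ) ^ (k v) ≤ Nv v := by
    intro v
    have h1 : (k v : ℝ) ≤ Real.log (Nv v) / Real.log 2 := Nat.floor_le (div_nonneg (log_Nv_pos v).le hl2.le)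
    rw [le_div_iff₀ hl2, ← Real.log_pow] at h1
    exact (Real.log_le_log_iff (by positivity) (Nv_pos v)).1 h1
  have hk2 : ∀ v, Nv v ≤ (2 : ℝ) ^ (k v + 1) := by
    intro v
    have h1 := (Nat.lt_floor_add_one (Real.log (Nv v) / Real.log 2)).le
    rw [div_le_iff₀ hl2] at h1
    have h2 : (((k v : ℕ) : ℝ) + 1) * Real.log 2 = Real.log ((2 : ℝ) ^ (k v + 1)) := by
      rw [Real.log_pow]
      push_cast
      ring
    rw [show ((⌊Real.log (Nv v) / Real.log 2⌋₊ : ℕ) : ℝ) = ((k v : ℕ) : ℝ) from rfl, h2] at h1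
    exact (Real.log_le_log_iff (Nv_pos v) (by positivity)).1 h1
  have hkm : ∀ v ∈ PP K z, k v ∈ Finset.range (m + 1) := by
    intro v hv
    rw [Finset.mem_range, Nat.lt_succ_iff]
    refine Nat.floor_le_floor ?_
    have := Real.log_le_log (Nv_pos v) (mem_PP.1 hv)
    gcongr
  rw [← Finset.sum_fiberwise_of_maps_to hkm]
  calc ∑ j ∈ Finset.range (m + 1), ∑ v ∈ (PP K z).filter (fun v => k v = j), Real.log (Nv v) / Nv v ≤
      ∑ j ∈ Finset.range (m + 1), 2 * C := by
        refine Finset.sum_le_sum fun j _ => ?_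
        calc ∑ v ∈ (PP K z).filter (fun v => k v = j), Real.log (Nv v) / Nv v ≤
            ∑ v ∈ (PP K z).filter (fun v => k v = j), Real.log (Nv v) / (2 : ℝ) ^ j := by
              refine Finset.sum_le_sum fun v hv => ?_
              have h1 := hk1 v
              rw [(Finset.mem_filter.1 hv).2] at h1
              exact div_le_div_of_nonneg_left (log_Nv_pos v).le (by positivity) h1
          _ = (∑ v ∈ (PP K z).filter (fun v => k v = j), Real.log (Nv v)) / (2 : ℝ) ^ j := by
              rw [Finset.sum_div]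
          _ ≤ (∑ v ∈ PP K ((2 : ℝ) ^ (j + 1)), Real.log (Nv v)) / (2 : ℝ) ^ j := by
              refine div_le_div_of_nonneg_right ?_ (by positivity)
              refine Finset.sum_le_sum_of_subset_of_nonneg (fun v hv => ?_) fun v _ _ => (log_Nv_pos v).le
              have h1 := hk2 v
              rw [(Finset.mem_filter.1 hv).2] at h1
              exact mem_PP.2 h1
          _ ≤ (C * (2 : ℝ) ^ (j + 1)) / (2 : ℝ) ^ j :=
              div_le_div_of_nonneg_right (h _ (by positivity)) (by positivity)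
          _ = 2 * C := by
              rw [pow_succ]
              field_simp
    _ = ((m : ℝ) + 1) * (2 * C) := by
        rw [Finset.sum_const, Finset.card_range, nsmul_eq_mul]
        push_cast
        ring
    _ ≤ (Real.log z / Real.log 2 + 1) * (2 * C) := by
        refine mul_le_mul_of_nonneg_right (by linarith) (by linarith)
    _ ≤ 2 * (C + 1) * (1 / Real.log 2 + 1) * (Real.log z + 1) := by
        have h1 : Real.log z / Real.log 2 + 1 ≤ (1 / Real.log 2 + 1) * (Real.log z + 1) := by
          have h2 : (1 / Real.log 2 + 1) * (Real.log z + 1) =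
              Real.log z / Real.log 2 + 1 + (1 / Real.log 2 + Real.log z) := by ring
          rw [h2]
          have : 0 ≤ 1 / Real.log 2 := by positivity
          linarith
        calc (Real.log z / Real.log 2 + 1) * (2 * C) ≤ ((1 / Real.log 2 + 1) * (Real.log z + 1)) * (2 * (C + 1)) := by
              refine mul_le_mul h1 (by linarith) (by linarith) (by positivity)
          _ = _ := by ring

theorem count_of_massK {a : ℝ} (ha : 0 < a) (b : ℝ) : ∃ P₀ δ : ℝ, 1 ≤ P₀ ∧ 0 < δ ∧
    ∀ P : ℝ, P₀ ≤ P → ∀ S ⊆ PP K P,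
    a * Real.log P - b ≤ ∑ v ∈ S, Real.log (Nv v) / Nv v →
    P ^ δ ≤ (S.card : ℝ) := by
  classical
  obtain ⟨B, hB, hM⟩ := mertens_upper K
  set τ : ℝ := a / (2 * B) with hτ
  have hτ0 : 0 < τ := by positivity
  set l₀ : ℝ := max 1 (max (4 * (b + B) / a) (2 / τ * Real.log (4 / a))) with hl₀
  refine ⟨Real.exp l₀, τ / 2, Real.one_le_exp (zero_le_one.trans (le_max_left _ _)), by positivity,
    fun P hP S hS h => ?_⟩
  have hP0 : 0 < P := (Real.exp_pos _).trans_le hP
  have hlP : l₀ ≤ Real.log P := by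
    rw [← Real.log_exp l₀]
    exact Real.log_le_log (Real.exp_pos _) hP
  have hlP1 : 1 ≤ Real.log P := (le_max_left _ _).trans hlP
  have hlP0 : 0 ≤ Real.log P := zero_le_one.trans hlP1
  have h1 : 4 * (b + B) / a ≤ Real.log P := ((le_max_left _ _).trans (le_max_right _ _)).trans hlP
  have h2 : 2 / τ * Real.log (4 / a) ≤ Real.log P := ((le_max_right _ _).trans (le_max_right _ _)).trans hlP
  set y : ℝ := P ^ τ with hy
  have hy0 : 0 < y := by positivity
  have hly : Real.log y = τ * Real.log P := by rw [hy, Real.log_rpow hP0]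
  have hy1 : 1 ≤ y := by
    by_contra hcon
    have := Real.log_neg hy0 (not_le.1 hcon)
    rw [hly] at this
    have := mul_nonneg hτ0.le hlP0
    linarith
  have hc0 : ∀ v : Pr K, 0 ≤ Real.log (Nv v) / Nv v := fun v =>
    div_nonneg (log_Nv_pos v).le (Nv_pos v).le
  have h3 : ∑ v ∈ S.filter (fun v : Pr K => Nv v ≤ y), Real.log (Nv v) / Nv v ≤ a / 2 * Real.log P + B := by
    refine (Finset.sum_le_sum_of_subset_of_nonneg (t := PP K y) (fun v hv => ?_) fun v _ _ => hc0 v).trans ?_
    · rw [mem_PP]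
      exact (Finset.mem_filter.1 hv).2
    · refine (hM y hy1).trans (le_of_eq ?_)
      rw [hly, hτ]
      field_simp
  have h4 : ∑ v ∈ S.filter (fun v : Pr K => ¬ Nv v ≤ y), Real.log (Nv v) / Nv v ≤
      (S.card : ℝ) * (Real.log P / y) := by
    calc ∑ v ∈ S.filter (fun v : Pr K => ¬ Nv v ≤ y), Real.log (Nv v) / Nv v ≤
          ∑ v ∈ S.filter (fun v : Pr K => ¬ Nv v ≤ y), Real.log P / y := by
          refine Finset.sum_le_sum fun v hv => ?_
          rw [Finset.mem_filter] at hv
          have h5 := hS hv.1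
          rw [mem_PP] at h5
          exact div_le_div₀ hlP0 (Real.log_le_log (Nv_pos v) h5) hy0 (not_le.1 hv.2).le
      _ = ((S.filter (fun v : Pr K => ¬ Nv v ≤ y)).card : ℝ) * (Real.log P / y) := by
          rw [Finset.sum_const, nsmul_eq_mul]
      _ ≤ _ := by
          refine mul_le_mul_of_nonneg_right ?_ (by positivity)
          exact_mod_cast Finset.card_filter_le _ _
  rw [← Finset.sum_filter_add_sum_filter_not S fun v : Pr K => Nv v ≤ y] at h
  have h5 : a / 4 * Real.log P ≤ (S.card : ℝ) * (Real.log P / y) := by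
    rw [div_le_iff₀ ha] at h1
    linarith
  have h6 : P ^ (τ / 2) * P ^ (τ / 2) = y := by
    rw [hy, ← Real.rpow_add hP0]
    congr 1
    ring
  have hz0 : 0 < P ^ (τ / 2) := by positivity
  have h7 : 4 / a ≤ P ^ (τ / 2) := by
    rw [← Real.exp_log (show 0 < 4 / a by positivity), Real.rpow_def_of_pos hP0]
    refine Real.exp_le_exp.2 ?_
    have h8 : τ / 2 * (2 / τ * Real.log (4 / a)) ≤ τ / 2 * Real.log P :=
      mul_le_mul_of_nonneg_left h2 (by positivity)
    have h9 : τ / 2 * (2 / τ * Real.log (4 / a)) = Real.log (4 / a) := by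
      field_simp
    rw [h9] at h8
    linarith
  have h9 : a / 4 * y ≤ (S.card : ℝ) := by
    have h10 : a / 4 * Real.log P * y ≤ (S.card : ℝ) * Real.log P := by
      have := mul_le_mul_of_nonneg_right h5 hy0.le
      have h11 : (S.card : ℝ) * (Real.log P / y) * y = (S.card : ℝ) * Real.log P := by
        field_simp
      rw [h11] at this
      exact this
    have h11 : (a / 4 * y) * Real.log P ≤ (S.card : ℝ) * Real.log P := by linarith
    exact le_of_mul_le_mul_right h11 (by linarith)
  have h10 : 1 ≤ a / 4 * P ^ (τ / 2) := by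
    have := mul_le_mul_of_nonneg_left h7 (show 0 ≤ a / 4 by positivity)
    have h11 : a / 4 * (4 / a) = 1 := by field_simp
    rw [h11] at this
    exact this
  calc P ^ (τ / 2) ≤ (a / 4 * P ^ (τ / 2)) * P ^ (τ / 2) := le_mul_of_one_le_left hz0.le h10
    _ = a / 4 * y := by rw [← h6]; ring
    _ ≤ _ := h9

end Pool.Agent.U985.UK
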