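import Pool.Agent.U985.UT.Mert
import Pool.Agent.N753.LS.Mert

/-! Mertens' theorem with Gaussian weights for the prime ideals of a number field. -/

set_option autoImplicit false

namespace Pool.Agent.U985.UK

open MeasureTheory Filter Topology NumberField IsDedekindDomain
open Pool.Agent.U985.UT (II II_scale hasDerivAt_g)

/-- Gaussian weights, abstract form -/
theorem gauss_low {V : Type} (pv : ℝ → Finset V) (c l : V → ℝ) (hc0 : ∀ v, 0 ≤ c v) (hl0 : ∀ v, 0 ≤ l v)
    (hmem : ∀ z : ℝ, 0 < z → ∀ v, v ∈ pv z ↔ l v ≤ Real.log z) {θ A₁ : ℝ} (hA1 : 0 ≤ A₁) (hθ : 0 ≤ θ) (hθ1 : θ ≤ 1)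
    (hM : ∀ z : ℝ, 1 ≤ z → θ * Real.log z - A₁ ≤ ∑ v ∈ pv z, c v) (s : ℝ) (hs : 0 < s) (P : ℝ) (hP : 1 ≤ P) :
    θ * (∫ t in (0 : ℝ)..Real.log P, Real.exp (-t ^ 2 / (2 * s ^ 2))) - (A₁ + 1) ≤
      ∑ v ∈ pv P, c v * Real.exp (-(l v) ^ 2 / (2 * s ^ 2)) := by
  set L : ℝ := Real.log P with hL
  have hL0 : 0 ≤ L := Real.log_nonneg hP
  have hP0 : 0 < P := by linarith
  set g : ℝ → ℝ := fun t => Real.exp (-t ^ 2 / (2 * s ^ 2)) with hg
  set h : ℝ → ℝ := fun t => t / s ^ 2 * g t with hh
  have hgc : Continuous g := by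
    simp only [hg]
    fun_prop
  have hhc : Continuous h := by
    simp only [hh]
    fun_prop
  have hg0 : ∀ t, 0 < g t := fun t => Real.exp_pos _
  have hh0 : ∀ t, 0 ≤ t → 0 ≤ h t := fun t ht => mul_nonneg (by positivity) (hg0 t).le
  have hgd : ∀ t, HasDerivAt g (-(h t)) t := fun t => hasDerivAt_g s hs t
  have hii : ∀ (ℓ a b : ℝ), IntervalIntegrable ((Set.Ioi ℓ).indicator h) volume a b := by
    intro ℓ a b
    have h1 := hhc.intervalIntegrable (μ := volume) a b
    exact ⟨h1.1.indicator measurableSet_Ioi, h1.2.indicator measurableSet_Ioi⟩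
  -- the layer formula
  have hlay : ∀ ℓ, 0 ≤ ℓ → ℓ ≤ L → g ℓ = g L + ∫ t in (0 : ℝ)..L, (Set.Ioi ℓ).indicator h t := by
    intro ℓ h1 h2
    have h3 : ∫ t in (0 : ℝ)..ℓ, (Set.Ioi ℓ).indicator h t = 0 := by
      refine intervalIntegral.integral_zero_ae (Eventually.of_forall fun t ht => ?_)
      rw [Set.uIoc_of_le h1] at ht
      exact Set.indicator_of_notMem (by simpa using ht.2) _
    have h4 : ∫ t in ℓ..L, (Set.Ioi ℓ).indicator h t = ∫ t in ℓ..L, h t := by
      refine intervalIntegral.integral_congr_ae (Eventually.of_forall fun t ht => ?_)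
      rw [Set.uIoc_of_le h2] at ht
      exact Set.indicator_of_mem ht.1 _
    have h5 : ∫ t in ℓ..L, h t = g ℓ - g L := by
      have h6 : ∀ t ∈ Set.uIcc ℓ L, HasDerivAt (fun t => -g t) (h t) t := by
        intro t _
        have := (hgd t).neg
        rwa [neg_neg] at this
      rw [intervalIntegral.integral_eq_sub_of_hasDerivAt h6 (hhc.intervalIntegrable _ _)]
      ring
    rw [← intervalIntegral.integral_add_adjacent_intervals (hii ℓ 0 ℓ) (hii ℓ ℓ L), h3, h4, h5]
    ring
  have hsum : ∑ p ∈ pv P, c p * g (l p) =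
      g L * ∑ p ∈ pv P, c p + ∫ t in (0 : ℝ)..L, ∑ p ∈ pv P, c p * (Set.Ioi (l p)).indicator h t := by
    rw [intervalIntegral.integral_finsetSum fun p _ => (hii (l p) 0 L).const_mul (c p), Finset.mul_sum,
      ← Finset.sum_add_distrib]
    refine Finset.sum_congr rfl fun p hp => ?_
    rw [hmem P hP0] at hp
    rw [intervalIntegral.integral_const_mul, hlay (l p) (hl0 p) hp]
    ring
  -- the lower bound
  have hlow : ∀ t, 0 ≤ t → t ≤ L → (θ * t - (A₁ + 1)) * h t ≤
      ∑ p ∈ pv P, c p * (Set.Ioi (l p)).indicator h t := by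
    intro t ht0 htL
    have h1 : ∀ p, 0 ≤ c p * (Set.Ioi (l p)).indicator h t := by
      intro p
      refine mul_nonneg (hc0 p) ?_
      rw [Set.indicator_apply]
      split_ifs
      · exact hh0 t ht0
      · exact le_rfl
    rcases lt_or_ge t 1 with h2 | h2
    · refine le_trans ?_ (Finset.sum_nonneg fun p _ => h1 p)
      refine mul_nonpos_of_nonpos_of_nonneg ?_ (hh0 t ht0)
      nlinarith
    · have h3 : (1 : ℝ) ≤ Real.exp (t - 1) := Real.one_le_exp (by linarith)
      have h4 := hM (Real.exp (t - 1)) h3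
      rw [Real.log_exp] at h4
      have hsub : pv (Real.exp (t - 1)) ⊆ pv P := by
        intro p hp
        rw [hmem _ (Real.exp_pos _), Real.log_exp] at hp
        rw [hmem P hP0]
        linarith
      calc (θ * t - (A₁ + 1)) * h t ≤ (∑ p ∈ pv (Real.exp (t - 1)), c p) * h t := by
            refine mul_le_mul_of_nonneg_right ?_ (hh0 t ht0)
            nlinarith
        _ = ∑ p ∈ pv (Real.exp (t - 1)), c p * (Set.Ioi (l p)).indicator h t := by
            rw [Finset.sum_mul]
            refine Finset.sum_congr rfl fun p hp => ?_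
            rw [hmem _ (Real.exp_pos _), Real.log_exp] at hp
            rw [Set.indicator_of_mem (show t ∈ Set.Ioi (l p) from by
              show l p < t
              linarith)]
        _ ≤ _ := Finset.sum_le_sum_of_subset_of_nonneg hsub fun p _ _ => h1 p
  have hint : ∫ t in (0 : ℝ)..L, (θ * t - (A₁ + 1)) * h t ≤
      ∫ t in (0 : ℝ)..L, ∑ p ∈ pv P, c p * (Set.Ioi (l p)).indicator h t := by
    refine intervalIntegral.integral_mono_on hL0
      ((by fun_prop : Continuous fun t => (θ * t - (A₁ + 1)) * h t).intervalIntegrable _ _)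
      ?_ fun t ht => hlow t ht.1 ht.2
    have : (fun t => ∑ p ∈ pv P, c p * (Set.Ioi (l p)).indicator h t) =
        ∑ p ∈ pv P, fun t => c p * (Set.Ioi (l p)).indicator h t := by
      ext t
      simp
    rw [this]
    exact IntervalIntegrable.sum _ fun p _ => (hii (l p) 0 L).const_mul (c p)
  have hft : ∫ t in (0 : ℝ)..L, ((θ * t - (A₁ + 1)) * h t - θ * g t) =
      -((θ * L - (A₁ + 1)) * g L) - (A₁ + 1) * g 0 := by
    have h6 : ∀ t ∈ Set.uIcc 0 L, HasDerivAt (fun t => -((θ * t - (A₁ + 1)) * g t))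
        ((θ * t - (A₁ + 1)) * h t - θ * g t) t := by
      intro t _
      have h7 := ((((hasDerivAt_id t).const_mul θ).sub_const (A₁ + 1)).mul (hgd t)).neg
      refine HasDerivAt.congr_deriv (f := fun t => -((θ * t - (A₁ + 1)) * g t)) h7 ?_
      simp only [id]
      ring
    rw [intervalIntegral.integral_eq_sub_of_hasDerivAt h6 ((by fun_prop :
      Continuous fun t => (θ * t - (A₁ + 1)) * h t - θ * g t).intervalIntegrable _ _)]
    ring
  rw [intervalIntegral.integral_sub
    ((by fun_prop : Continuous fun t => (θ * t - (A₁ + 1)) * h t).intervalIntegrable _ _)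
    ((by fun_prop : Continuous fun t => θ * g t).intervalIntegrable _ _),
    intervalIntegral.integral_const_mul] at hft
  have hg1 : g 0 = 1 := by simp [hg]
  rw [hg1] at hft
  have hML := hM P hP
  have h9 := mul_le_mul_of_nonneg_left hML (hg0 L).le
  change θ * (∫ t in (0 : ℝ)..L, g t) - (A₁ + 1) ≤ ∑ p ∈ pv P, c p * g (l p)
  rw [hsum]
  have h10 := hg0 L
  nlinarith

end Pool.Agent.U985.UK
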